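import Mathlib
import Pool.Agent.R525.Tesler

set_option autoImplicit false

open Finset

namespace Pool.Agent.Results.MP_1235ca_co.TeslerLowerBound

/-- `A` is a Tesler matrix with hook sums `α`: it is upper triangular with nonnegative integer
entries, and for every `i` the sum of row `i` from the diagonal rightwards minus the sum of the part
of column `i` strictly above the diagonal equals `α i`. -/
def IsTesler {n : ℕ} (α : Fin n → ℕ) (A : Matrix (Fin n) (Fin n) ℕ) : Prop :=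
  (∀ i j, j < i → A i j = 0) ∧
    ∀ i, (∑ j ∈ Finset.Ici i, (A i j : ℤ)) - ∑ j ∈ Finset.Iio i, (A j i : ℤ) = α i

open Pool.Agent.R525.Tesler in
theorem isTesler_iff (α : ℕ → ℕ) (n : ℕ) (A : Matrix (Fin n) (Fin n) ℕ) :
    IsTesler (fun i : Fin n => α i) A ↔ A ∈ T α n := by
  rw [mem_T]
  unfold IsTesler IT
  refine and_congr_right fun h => forall_congr' fun i => ?_
  have h1 : ∑ j, A i j = ∑ j ∈ Finset.Ici i, A i j := by
    symm
    refine Finset.sum_subset (Finset.subset_univ _) fun j _ hj => ?_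
    rw [Finset.mem_Ici, not_le] at hj
    exact h i j hj
  have h2 : ∑ j, A j i = ∑ j ∈ Finset.Iio i, A j i + A i i := by
    rw [← Finset.sum_subset (Finset.subset_univ (Finset.Iic i))]
    · rw [← Finset.Iio_insert, Finset.sum_insert (by simp), add_comm]
    · intro j _ hj
      rw [Finset.mem_Iic, not_le] at hj
      exact h j i hj
  rw [h1, h2]
  have e1 : (∑ j ∈ Finset.Ici i, (A i j : ℤ)) = ((∑ j ∈ Finset.Ici i, A i j : ℕ) : ℤ) := by
    push_cast; rfl
  have e2 : (∑ j ∈ Finset.Iio i, (A j i : ℤ)) = ((∑ j ∈ Finset.Iio i, A j i : ℕ) : ℤ) := by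
    push_cast; rfl
  rw [e1, e2]
  beta_reduce
  omega

open Pool.Agent.R525.Tesler

theorem T_congr (α β : ℕ → ℕ) : ∀ n : ℕ, (∀ i < n, α i = β i) → T α n = T β n := by
  intro n
  induction n with
  | zero => intro _; rfl
  | succ n ih =>
    intro h
    simp only [T]
    rw [ih fun i hi => h i (by omega), h n (by omega)]

theorem base_count : ∑ A ∈ T (fun _ => 1) 3, ∏ i, (A i i + 3).choose 3 = 264 := by
  decide +kernel

theorem M_three (α : ℕ → ℕ) (hα : ∀ i < 3, α i = 1) : M 3 α 3 = 264 := by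
  have h1 : M 3 α 3 = ((∑ A ∈ T (fun _ => 1) 3, ∏ i, (A i i + 3).choose 3 : ℕ) : ℝ) := by
    unfold M F
    rw [T_congr α (fun _ => 1) 3 hα]
    push_cast
    rfl
  rw [h1, base_count]
  norm_num

theorem sum_α (k : ℕ) (α : ℕ → ℕ) (hα : ∀ i < k, α i = 1) (n : ℕ) (hn : n ≤ k) :
    ∑ i ∈ Finset.range n, α i = n := by
  rw [Finset.sum_congr rfl fun i hi => hα i (lt_of_lt_of_le (Finset.mem_range.1 hi) hn)]
  simp

theorem step3 (k : ℕ) (α : ℕ → ℕ) (hα : ∀ i < k, α i = 1) (n : ℕ) (hn : n < k) :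
    (((n : ℝ) / 5 + 4) * ((n : ℝ) / 5 + 3) * ((n : ℝ) / 5 + 2) / 6) * ((1 + (n : ℝ) / 4) * M 3 α n) ≤
      M 3 α (n + 1) := by
  have h1 := M_three_succ α n (hα n hn) ((n : ℝ) / 5) (by rw [sum_α k α hα n hn.le])
  have h2 := M_succ_ge 3 α n
  rw [sum_α k α hα n hn.le] at h2
  refine le_trans (mul_le_mul_of_nonneg_left ?_ (by positivity)) h1
  refine le_trans (le_of_eq ?_) h2
  norm_num

theorem base_eleven (k : ℕ) (hk : 11 ≤ k) (α : ℕ → ℕ) (hα : ∀ i < k, α i = 1) :
    (12 : ℝ) ^ 10 ≤ M 0 α 11 := by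
  have h3 := M_three α fun i hi => hα i (by omega)
  have h4 := step3 k α hα 3 (by omega)
  have h5 := step3 k α hα 4 (by omega)
  have h6 := step3 k α hα 5 (by omega)
  have h7 := step3 k α hα 6 (by omega)
  have h8 := step3 k α hα 7 (by omega)
  have h9 := M_two_succ α 8 (hα 8 (by omega)) 2 (by
    rw [sum_α k α hα 8 (by omega)]; norm_num)
  have h10 := M_one_succ α 9
  rw [sum_α k α hα 9 (by omega), hα 9 (by omega)] at h10
  have h11 := M_zero_succ α 10
  rw [h3] at h4
  rw [h11, h10]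
  norm_num at h4 h5 h6 h7 h8 h9 ⊢
  linarith

theorem step0 (k : ℕ) (α : ℕ → ℕ) (hα : ∀ i < k, α i = 1) (m : ℕ) (hm : 1 ≤ m) (hmk : m < k) :
    (((m : ℝ) + 1) * (m + 5) / 6) * M 0 α m ≤ M 0 α (m + 1) := by
  obtain ⟨n, rfl⟩ : ∃ n, m = n + 1 := ⟨m - 1, by omega⟩
  rw [M_zero_succ α (n + 1), M_one_succ α n, M_zero_succ α n, hα n (by omega),
    sum_α k α hα n (by omega)]
  have h2 := M_succ_ge 1 α n
  rw [sum_α k α hα n (by omega)] at h2
  have h3 : (0 : ℝ) ≤ ((1 : ℕ) : ℝ) + 1 + (n : ℝ) / 3 := by positivity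
  refine le_trans (le_of_eq ?_) (mul_le_mul_of_nonneg_left h2 h3)
  push_cast
  ring

theorem pow_bound (m : ℕ) (hm : 11 ≤ m) :
    ((m : ℝ) + 2) ^ m ≤ (((m : ℝ) + 5) / 6) * ((m : ℝ) + 1) ^ m := by
  rcases Nat.eq_or_lt_of_le hm with h | h
  · subst h
    norm_num
  · have h1 : (0 : ℝ) < (m : ℝ) + 1 := by positivity
    have h2 : (m : ℝ) + 2 ≤ ((m : ℝ) + 1) * Real.exp (1 / ((m : ℝ) + 1)) := by
      have := Real.add_one_le_exp (1 / ((m : ℝ) + 1))
      have h3 : ((m : ℝ) + 1) * (1 / ((m : ℝ) + 1) + 1) = (m : ℝ) + 2 := by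
        field_simp; ring
      rw [← h3]
      exact mul_le_mul_of_nonneg_left this h1.le
    have h4 : ((m : ℝ) + 2) ^ m ≤ (((m : ℝ) + 1) * Real.exp (1 / ((m : ℝ) + 1))) ^ m :=
      pow_le_pow_left₀ (by positivity) h2 m
    rw [mul_pow, ← Real.exp_nat_mul] at h4
    have h5 : Real.exp ((m : ℝ) * (1 / ((m : ℝ) + 1))) ≤ Real.exp 1 := by
      refine Real.exp_le_exp.2 ?_
      rw [mul_one_div, div_le_one h1]
      linarith
    have h6 : Real.exp 1 ≤ ((m : ℝ) + 5) / 6 := by
      have := Real.exp_one_lt_d9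
      have h7 : (12 : ℝ) ≤ m := by exact_mod_cast h
      linarith
    refine h4.trans ?_
    rw [mul_comm]
    exact mul_le_mul_of_nonneg_right (h5.trans h6) (by positivity)

theorem bound_diag (k : ℕ) (hk : 11 ≤ k) (α : ℕ → ℕ) (hα : ∀ i < k, α i = 1) (m : ℕ)
    (hm : 11 ≤ m) : m ≤ k → ((m : ℝ) + 1) ^ (m - 1) ≤ M 0 α m := by
  induction m, hm using Nat.le_induction with
  | base =>
    intro _
    have := base_eleven k hk α hα
    norm_num at this ⊢
    exact this
  | succ m hm ih =>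
    intro hmk
    have h1 := ih (by omega)
    have h2 := step0 k α hα m (by omega) (by omega)
    have h3 := pow_bound m hm
    refine le_trans ?_ (le_trans (mul_le_mul_of_nonneg_left h1 (by positivity)) h2)
    rw [Nat.add_sub_cancel]
    push_cast
    have h4 : ((m : ℝ) + 1) ^ m = ((m : ℝ) + 1) ^ (m - 1) * ((m : ℝ) + 1) := by
      rw [← pow_succ]
      congr 1
      omega
    rw [h4] at h3
    have h5 : (m : ℝ) + 1 + 1 = (m : ℝ) + 2 := by ring
    rw [h5]
    refine h3.trans (le_of_eq ?_)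
    ring

theorem bound_all (k : ℕ) (hk : 11 ≤ k) (n : ℕ) (hn : k ≤ n) :
    ((k : ℝ) + 1) ^ (n - 1) ≤ M 0 (fun i => if i < k then 1 else 0) n := by
  have hα : ∀ i < k, (fun i => if i < k then 1 else 0 : ℕ → ℕ) i = 1 := by
    intro i hi
    simp [hi]
  induction n, hn using Nat.le_induction with
  | base => exact bound_diag k hk _ hα k hk le_rfl
  | succ n hn ih =>
    rw [M_zero_succ]
    have h1 := M_succ_ge 0 (fun i => if i < k then 1 else 0) n
    have h2 : ∑ i ∈ Finset.range n, (fun i => if i < k then 1 else 0 : ℕ → ℕ) i = k := by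
      rw [← Finset.sum_subset (Finset.range_subset_range.2 hn)]
      · exact sum_α k _ hα k le_rfl
      · intro i _ hi
        rw [Finset.mem_range] at hi
        simp [hi]
    rw [h2] at h1
    refine le_trans ?_ h1
    have h3 : n + 1 - 1 = (n - 1) + 1 := by omega
    rw [h3, pow_succ, mul_comm]
    norm_num
    refine le_trans (mul_le_mul_of_nonneg_left ih (by positivity)) (le_of_eq ?_)
    ring

/-- For all `n ≥ k ≥ 11` the number of Tesler matrices with hook sums `(1^k, 0^(n-k))` is finite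
and at least `(k + 1) ^ (n - 1)`. -/
theorem result (n k : ℕ) (hk : 11 ≤ k) (hkn : k ≤ n) :
    {A : Matrix (Fin n) (Fin n) ℕ | IsTesler (fun i => if (i : ℕ) < k then 1 else 0) A}.Finite ∧
    (k + 1) ^ (n - 1) ≤
      {A : Matrix (Fin n) (Fin n) ℕ | IsTesler (fun i => if (i : ℕ) < k then 1 else 0) A}.ncard := by
  have h1 : {A : Matrix (Fin n) (Fin n) ℕ | IsTesler (fun i => if (i : ℕ) < k then 1 else 0) A} =
      (T (fun i => if i < k then 1 else 0) n : Set (Matrix (Fin n) (Fin n) ℕ)) := by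
    ext A
    exact isTesler_iff (fun i => if i < k then 1 else 0) n A
  rw [h1, Set.ncard_coe_finset]
  refine ⟨Finset.finite_toSet _, ?_⟩
  have h2 := bound_all k hk n hkn
  rw [M_zero] at h2
  exact_mod_cast h2

end Pool.Agent.Results.MP_1235ca_co.TeslerLowerBound
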